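import Pool.Agent.W900.CH.Spa
import Pool.Agent.H620R2.GaugeR.R2
import Pool.Agent.H620R2.GaugeX.Defs
import Pool.Agent.H620R2.GaugeX.X7

/-!
# Random strings can be replaced by advice
-/

set_option autoImplicit false

namespace Pool.Agent.W900.CH

open Pool.Agent.NPC Pool.Agent.H620R2.Gauge Pool.Agent.H622R2
open Pool.Agent.W900.SP (poly_u1 poly_u2)

open Classical in
/-- Few strings are good for all inputs of a given length. -/
theorem hit (n m : ℕ) (Bad : List Bool → Set (List Bool))
    (h : ∀ x : List Bool, x.length = n →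
      2 * Nat.card {w : Fin m → Bool // List.ofFn w ∈ Bad x} ≤ 2 ^ m) :
    ∃ l : List (List Bool), l.length = n + 1 ∧ (∀ r ∈ l, r.length = m) ∧
      ∀ x : List Bool, x.length = n → ∃ r ∈ l, r ∉ Bad x := by
  by_contra hcon
  push Not at hcon
  set B : (Fin n → Bool) → Finset (Fin m → Bool) := fun x =>
    Finset.univ.filter (fun w => List.ofFn w ∈ Bad (List.ofFn x)) with hB
  have h1 : (Finset.univ : Finset (Fin (n + 1) → Fin m → Bool)) ⊆
      Finset.univ.biUnion (fun x : Fin n → Bool => Fintype.piFinset (fun _ => B x)) := by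
    intro r _
    obtain ⟨x, hx, h2⟩ := hcon (List.ofFn (fun i => List.ofFn (r i))) (by simp) (by
      intro y hy
      rw [List.mem_ofFn] at hy
      obtain ⟨i, rfl⟩ := hy
      simp)
    rw [Finset.mem_biUnion]
    subst hx
    refine ⟨x.get, Finset.mem_univ _, ?_⟩
    rw [Fintype.mem_piFinset]
    intro i
    rw [hB, Finset.mem_filter]
    refine ⟨Finset.mem_univ _, ?_⟩
    rw [List.ofFn_get]
    exact h2 _ (List.mem_ofFn.2 ⟨i, rfl⟩)
  have h2 := (Finset.card_le_card h1).trans Finset.card_biUnion_le
  have h3 : ∀ x : Fin n → Bool, 2 * (B x).card ≤ 2 ^ m := by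
    intro x
    have h4 := h (List.ofFn x) (by simp)
    rwa [Nat.card_eq_fintype_card, Fintype.card_subtype] at h4
  have h5 : 2 ^ (n + 1) * (2 ^ m) ^ (n + 1) ≤ 2 ^ n * (2 ^ m) ^ (n + 1) := by
    calc 2 ^ (n + 1) * (2 ^ m) ^ (n + 1)
        = 2 ^ (n + 1) * (Finset.univ : Finset (Fin (n + 1) → Fin m → Bool)).card := by
          rw [Finset.card_univ, Fintype.card_fun, Fintype.card_fun, Fintype.card_bool,
            Fintype.card_fin, Fintype.card_fin]
      _ ≤ 2 ^ (n + 1) * ∑ x : Fin n → Bool, (Fintype.piFinset (fun _ : Fin (n + 1) => B x)).card :=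
          Nat.mul_le_mul_left _ h2
      _ = ∑ x : Fin n → Bool, (2 * (B x).card) ^ (n + 1) := by
          rw [Finset.mul_sum]
          refine Finset.sum_congr rfl fun x _ => ?_
          rw [Fintype.card_piFinset_const, mul_pow]
      _ ≤ ∑ _x : Fin n → Bool, (2 ^ m) ^ (n + 1) :=
          Finset.sum_le_sum fun x _ => Nat.pow_le_pow_left (h3 x) _
      _ = 2 ^ n * (2 ^ m) ^ (n + 1) := by
          rw [Finset.sum_const, Finset.card_univ, Fintype.card_fun, Fintype.card_bool,
            Fintype.card_fin, smul_eq_mul]
  have h6 : 0 < (2 ^ m) ^ (n + 1) := by positivity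
  have h7 := Nat.le_of_mul_le_mul_right h5 h6
  have h8 : 2 ^ n < 2 ^ (n + 1) := Nat.pow_lt_pow_right (by norm_num) (by omega)
  omega

open Classical in
/-- some of polynomially many runs accept -/
theorem isFP_any {A : Oracle} {V : List Bool → List Bool} (hV : IsFP A V)
    {W : ℕ × List Bool → List Bool} (hW : Poly W) :
    IsFP A (fun y => if ∃ i < y.length + 1, V (W (i, y)) = [true] then [true] else []) := by
  have h := IsFP.votes hV (Polynomial.X + 1) (Q := fun _ => []) (NPC.Poly.const _)
    (W := fun p => W p.1) (hW.comp (Poly.fst Poly.id))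
    (H := fun p : List Bool × List Bool => if p.2.any (fun b => b) = true then [true] else [])
    (Poly.ite (Poly.decide_bool (Poly.any (p := fun _ b => b) (Poly.snd Poly.id)
      (Poly.snd Poly.id))) (NPC.Poly.const _) (NPC.Poly.const _))
  refine (congrArg (IsFP A) (funext fun y => ?_)).mp h
  dsimp only
  refine if_congr ?_ rfl rfl
  rw [List.any_eq_true]
  simp only [List.mem_map, List.mem_range, Polynomial.eval_add, Polynomial.eval_X,
    Polynomial.eval_one]
  constructor
  · rintro ⟨b, ⟨i, hi, rfl⟩, h2⟩
    exact ⟨i, hi, of_decide_eq_true h2⟩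
  · rintro ⟨i, hi, h2⟩
    exact ⟨_, ⟨i, hi, rfl⟩, decide_eq_true h2⟩

open Classical in
/-- all of polynomially many runs accept -/
theorem isFP_all {A : Oracle} {V : List Bool → List Bool} (hV : IsFP A V)
    {W : ℕ × List Bool → List Bool} (hW : Poly W) :
    IsFP A (fun y => if ∀ i < y.length + 1, V (W (i, y)) = [true] then [true] else []) := by
  have h := IsFP.votes hV (Polynomial.X + 1) (Q := fun _ => []) (NPC.Poly.const _)
    (W := fun p => W p.1) (hW.comp (Poly.fst Poly.id))
    (H := fun p : List Bool × List Bool => if p.2.all (fun b => b) = true then [true] else [])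
    (Poly.ite (Poly.decide_bool (Poly.all (p := fun _ b => b) (Poly.snd Poly.id)
      (Poly.snd Poly.id))) (NPC.Poly.const _) (NPC.Poly.const _))
  refine (congrArg (IsFP A) (funext fun y => ?_)).mp h
  dsimp only
  refine if_congr ?_ rfl rfl
  rw [List.all_eq_true]
  simp only [List.mem_map, List.mem_range, Polynomial.eval_add, Polynomial.eval_X,
    Polynomial.eval_one]
  constructor
  · intro h2 i hi
    exact of_decide_eq_true (h2 _ ⟨i, hi, rfl⟩)
  · rintro h2 b ⟨i, hi, rfl⟩
    exact decide_eq_true (h2 i hi)

/-- the entry number `i` of a list, or the first one -/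
def ent (l : List (List Bool)) (i : ℕ) : List Bool := l.getD i (l.getD 0 [])

theorem poly_ent {α : Type} [TEnc α] {l : α → List (List Bool)} {i : α → ℕ} (hl : Poly l)
    (hi : Poly i) : Poly (fun a => ent (l a) (i a)) := by
  unfold ent
  exact Poly.getD hl hi (Poly.getD hl (NPC.Poly.const 0) (NPC.Poly.const []))

theorem ent_mem {l : List (List Bool)} (hl : l ≠ []) (i : ℕ) : ent l i ∈ l := by
  unfold ent
  have h0 : 0 < l.length := List.length_pos_iff.2 hl
  by_cases h : i < l.length
  · rw [List.getD_eq_getElem _ _ h]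
    exact List.getElem_mem h
  · rw [List.getD_eq_default _ _ (by omega), List.getD_eq_getElem _ _ h0]
    exact List.getElem_mem h0

theorem exists_ent {l : List (List Bool)} {r : List Bool} (h : r ∈ l) :
    ∃ i < l.length, ent l i = r := by
  obtain ⟨i, hi, h1⟩ := List.getElem_of_mem h
  refine ⟨i, hi, ?_⟩
  unfold ent
  rw [List.getD_eq_getElem _ _ hi]
  exact h1

theorem ent_map {l : List (List Bool)} (hl : l ≠ []) (f : List Bool → List Bool) (i : ℕ) :
    ent (l.map f) i = f (ent l i) := by
  unfold ent
  have h0 : 0 < l.length := List.length_pos_iff.2 hl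
  by_cases h : i < l.length
  · rw [List.getD_eq_getElem _ _ h, List.getD_eq_getElem _ _ (by simpa using h)]
    simp
  · have e1 : (l.map f).getD i ((l.map f).getD 0 []) = (l.map f).getD 0 [] :=
      List.getD_eq_default _ _ (by rw [List.length_map]; omega)
    have e2 : l.getD i (l.getD 0 []) = l.getD 0 [] := List.getD_eq_default _ _ (by omega)
    rw [e1, e2, List.getD_eq_getElem _ _ h0,
      List.getD_eq_getElem _ _ (by rw [List.length_map]; exact h0)]
    simp

/-- Zero error algorithms can be replaced by deterministic ones with advice. -/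
theorem zpp_advice {A : Oracle} {L : Set (List Bool)} (h : IsZPP A L) : WithAdvice (IsP A) L := by
  classical
  obtain ⟨V, p, hV, hx⟩ := h
  have h1 : ∀ n : ℕ, ∃ l : List (List Bool), l.length = n + 1 ∧
      (∀ r ∈ l, r.length = p.eval n) ∧ ∀ x : List Bool, x.length = n → ∃ r ∈ l,
        ¬ (V (pairBits r x) ≠ [true] ∧ V (pairBits r x) ≠ [false]) := by
    intro n
    refine hit n (p.eval n) (fun x => {r | V (pairBits r x) ≠ [true] ∧
      V (pairBits r x) ≠ [false]}) ?_
    intro x hxn
    have h2 := (hx x).2
    rw [hxn] at h2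
    rw [Nat.card_eq_fintype_card, Fintype.card_subtype] at h2 ⊢
    have h3 := Finset.card_filter_add_card_filter_not (s := (Finset.univ : Finset (Fin (p.eval n) → Bool)))
      (fun w => V (pairBits (List.ofFn w) x) = [true] ∨ V (pairBits (List.ofFn w) x) = [false])
    rw [Finset.card_univ, Fintype.card_fun, Fintype.card_bool, Fintype.card_fin] at h3
    rw [div_le_div_iff₀ (by norm_num) (by positivity), one_mul] at h2
    have h4 : 2 ^ p.eval n ≤ (Finset.univ.filter (fun w : Fin (p.eval n) → Bool =>
      V (pairBits (List.ofFn w) x) = [true] ∨ V (pairBits (List.ofFn w) x) = [false])).card * 2 := by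
      exact_mod_cast h2
    have h5 : (Finset.univ.filter (fun w : Fin (p.eval n) → Bool =>
        List.ofFn w ∈ {r | V (pairBits r x) ≠ [true] ∧ V (pairBits r x) ≠ [false]})).card =
        (Finset.univ.filter (fun w : Fin (p.eval n) → Bool =>
      ¬ (V (pairBits (List.ofFn w) x) = [true] ∨ V (pairBits (List.ofFn w) x) = [false]))).card := by
      congr 1
      ext w
      simp only [Finset.mem_filter, Finset.mem_univ, true_and, Set.mem_ofPred_eq, not_or]
    rw [h5]
    omega
  choose l hl1 hl2 hl3 using h1
  have hne : ∀ n, l n ≠ [] := by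
    intro n h2
    have := hl1 n
    rw [h2] at this
    simp at this
  obtain ⟨W, hW⟩ : ∃ W : ℕ × List Bool → List Bool, W = fun q =>
      pairBits (ent (dl (unpair q.2).2) q.1) (unpair q.2).1 := ⟨_, rfl⟩
  have pW : Poly W := by
    rw [hW]
    exact poly_pairBits (poly_ent (poly_dl.comp (poly_u2 (Poly.snd Poly.id)))
      (Poly.fst Poly.id)) (poly_u1 (Poly.snd Poly.id))
  refine ⟨{y | (if ∃ i < y.length + 1, V (W (i, y)) = [true] then [true]
      else ([] : List Bool)) = [true]}, fun n => bits (l n),
    (Polynomial.C 4 * p + Polynomial.C 2) * (Polynomial.X + 1) + Polynomial.C 1,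
    ⟨_, isFP_any hV pW, fun x => Iff.rfl⟩, ?_, ?_⟩
  · intro n
    rw [bits_length]
    have h2 := sz_list_le (R := p.eval n) (l n) fun y hy => (hl2 n y hy).le
    rw [hl1] at h2
    simpa using h2
  · intro x
    have hWx : ∀ i : ℕ, W (i, pairBits x (bits (l x.length))) =
        pairBits (ent (l x.length) i) x := by
      intro i
      rw [hW]
      simp only [unpair_pairBits, dl_bits]
    rw [Set.mem_ofPred_eq]
    constructor
    · intro hL
      rw [if_pos]
      obtain ⟨r, hr, h2⟩ := hl3 x.length x rfl
      obtain ⟨i, hi, h3⟩ := exists_ent hr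
      refine ⟨i, ?_, ?_⟩
      · rw [hl1] at hi
        rw [A2.length_pairBits]
        omega
      · rw [hWx, h3]
        by_contra h4
        apply h2
        refine ⟨h4, fun h5 => ?_⟩
        exact ((hx x).1 r (hl2 _ _ hr)).2 h5 hL
    · intro h2
      by_contra hL
      rw [if_neg] at h2
      · simp at h2
      · rintro ⟨i, _, h3⟩
        rw [hWx] at h3
        exact hL (((hx x).1 _ (hl2 _ _ (ent_mem (hne _) i))).1 h3)

/-- The language `L` has two-message interactive proofs relative to `A`, in which the message of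
the verifier consists of its random bits, with perfect completeness and soundness error at most
`1 / 2`: if `x` is in `L`, then for all random bits `r` there is a reply `w` that makes the
algorithm `V` accept; if `x` is not in `L`, then there is such a reply for at most half of the
random bits. -/
def IsAM (A : Oracle) (L : Set (List Bool)) : Prop :=
  ∃ (V : List Bool → List Bool) (p : Polynomial ℕ), IsFP A V ∧ ∀ x,
    (x ∈ L → ∀ r : List Bool, r.length = p.eval x.length →
      ∃ w : List Bool, w.length ≤ p.eval x.length ∧ V (pairBits w (pairBits r x)) = [true]) ∧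
    (x ∉ L → 2 * Nat.card {r : Fin (p.eval x.length) → Bool //
      ∃ w : List Bool, w.length ≤ p.eval x.length ∧
        V (pairBits w (pairBits (List.ofFn r) x)) = [true]} ≤ 2 ^ p.eval x.length)

theorem isAM_of_isNP {A : Oracle} {L : Set (List Bool)} (h : IsNP A L) : IsAM A L := by
  obtain ⟨V, p, hV, hL⟩ := h
  have hVz : ∀ w r x, V (pairBits (unpair (pairBits w (pairBits r x))).1
      (unpair (unpair (pairBits w (pairBits r x))).2).2) = V (pairBits w x) := by
    intro w r x
    rw [unpair_pairBits]
    dsimp only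
    rw [unpair_pairBits]
  refine ⟨fun z => V (pairBits (unpair z).1 (unpair (unpair z).2).2), p,
    IsFP.comp hV (IsFP.of_poly (poly_pairBits (poly_u1 Poly.id) (poly_u2 (poly_u2 Poly.id)))),
    fun x => ⟨fun hx r _ => ?_, fun hx => ?_⟩⟩
  · obtain ⟨w, hw, h⟩ := (hL x).1 hx
    exact ⟨w, hw, (hVz w r x).trans h⟩
  · have h2 : Nat.card {r : Fin (p.eval x.length) → Bool //
        ∃ w : List Bool, w.length ≤ p.eval x.length ∧
          (fun z => V (pairBits (unpair z).1 (unpair (unpair z).2).2))
            (pairBits w (pairBits (List.ofFn r) x)) = [true]} = 0 := by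
      rw [Nat.card_eq_zero]
      left
      refine ⟨fun r => ?_⟩
      obtain ⟨w, hw, h⟩ := r.2
      exact hx ((hL x).2 ⟨w, hw, (hVz w (List.ofFn r.1) x).symm.trans h⟩)
    rw [h2]
    simp

/-- The random bits of the verifier can be replaced by advice. -/
theorem am_advice {A : Oracle} {L : Set (List Bool)} (h : IsAM A L) : WithAdvice (IsNP A) L := by
  classical
  obtain ⟨V, p, hV, hx⟩ := h
  have h1 : ∀ n : ℕ, ∃ l : List (List Bool), l.length = n + 1 ∧
      (∀ r ∈ l, r.length = p.eval n) ∧ ∀ x : List Bool, x.length = n → ∃ r ∈ l,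
        ¬ (x ∉ L ∧ ∃ w : List Bool, w.length ≤ p.eval n ∧ V (pairBits w (pairBits r x)) = [true]) := by
    intro n
    refine hit n (p.eval n) (fun x => {r | x ∉ L ∧ ∃ w : List Bool, w.length ≤ p.eval n ∧
      V (pairBits w (pairBits r x)) = [true]}) ?_
    intro x hxn
    subst hxn
    by_cases hL : x ∈ L
    · have h2 : Nat.card {w : Fin (p.eval x.length) → Bool // List.ofFn w ∈ {r | x ∉ L ∧
          ∃ w : List Bool, w.length ≤ p.eval x.length ∧
            V (pairBits w (pairBits r x)) = [true]}} = 0 := by
        rw [Nat.card_eq_zero]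
        left
        exact ⟨fun w => w.2.1 hL⟩
      rw [h2]
      simp
    · refine le_trans (Nat.mul_le_mul_left _ (le_of_eq ?_)) ((hx x).2 hL)
      apply Nat.card_congr
      apply Equiv.subtypeEquivRight
      intro w
      exact ⟨fun h => h.2, fun h => ⟨hL, h⟩⟩
  choose l hl1 hl2 hl3 using h1
  have hne : ∀ n, l n ≠ [] := by
    intro n h2
    have := hl1 n
    rw [h2] at this
    simp at this
  obtain ⟨W, hW⟩ : ∃ W : ℕ × List Bool → List Bool, W = fun q =>
      pairBits ((ent (dl (unpair q.2).1) q.1).take (p.eval (unpair (unpair q.2).2).1.length))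
        (pairBits (ent (dl (unpair (unpair q.2).2).2) q.1) (unpair (unpair q.2).2).1) := ⟨_, rfl⟩
  have pW : Poly W := by
    rw [hW]
    have e1 : Poly (fun q : ℕ × List Bool => (unpair (unpair q.2).2).1) :=
      poly_u1 (poly_u2 (Poly.snd Poly.id))
    refine poly_pairBits (R1.poly_take (poly_ent (poly_dl.comp (poly_u1 (Poly.snd Poly.id)))
      (Poly.fst Poly.id)) (UPoly.eval (UPoly.length e1) p)) (poly_pairBits ?_ e1)
    exact poly_ent (poly_dl.comp (poly_u2 (poly_u2 (Poly.snd Poly.id)))) (Poly.fst Poly.id)
  obtain ⟨V', hV'⟩ : ∃ V' : List Bool → List Bool, V' = fun z =>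
      if ∀ i < z.length + 1, V (W (i, z)) = [true] then [true] else [] := ⟨_, rfl⟩
  have pV' : IsFP A V' := by
    rw [hV']
    exact isFP_all hV pW
  refine ⟨{y | ∃ w : List Bool, w.length ≤ ((Polynomial.C 4 * p + Polynomial.C 2) *
      (Polynomial.X + 1) + Polynomial.C 1).eval y.length ∧ V' (pairBits w y) = [true]},
    fun n => bits (l n),
    (Polynomial.C 4 * p + Polynomial.C 2) * (Polynomial.X + 1) + Polynomial.C 1,
    ⟨V', _, pV', fun x => Iff.rfl⟩, ?_, ?_⟩
  · intro n
    rw [bits_length]
    have h2 := sz_list_le (R := p.eval n) (l n) fun y hy => (hl2 n y hy).le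
    rw [hl1] at h2
    simpa using h2
  · intro x
    rw [Set.mem_ofPred_eq]
    have hWx : ∀ (w : List Bool) (i : ℕ), W (i, pairBits w (pairBits x (bits (l x.length)))) =
        pairBits ((ent (dl w) i).take (p.eval x.length)) (pairBits (ent (l x.length) i) x) := by
      intro w i
      rw [hW]
      simp only [unpair_pairBits, dl_bits]
    constructor
    · intro hL
      have h2 : ∀ r : List Bool, ∃ w : List Bool, r.length = p.eval x.length →
          w.length ≤ p.eval x.length ∧ V (pairBits w (pairBits r x)) = [true] := by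
        intro r
        by_cases hr : r.length = p.eval x.length
        · obtain ⟨w, hw⟩ := (hx x).1 hL r hr
          exact ⟨w, fun _ => hw⟩
        · exact ⟨[], fun h => absurd h hr⟩
      choose wf hwf using h2
      refine ⟨bits ((l x.length).map wf), ?_, ?_⟩
      · rw [bits_length]
        have h3 := sz_list_le (R := p.eval x.length) ((l x.length).map wf) (by
          intro y hy
          obtain ⟨r, hr, rfl⟩ := List.mem_map.1 hy
          exact (hwf r (hl2 _ _ hr)).1)
        rw [List.length_map, hl1] at h3
        refine h3.trans ?_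
        have h4 : x.length ≤ (pairBits x (bits (l x.length))).length := by
          rw [A2.length_pairBits]
          omega
        have h5 := eval_mono ((Polynomial.C 4 * p + Polynomial.C 2) *
          (Polynomial.X + 1) + Polynomial.C 1) h4
        refine le_trans (le_of_eq ?_) h5
        simp
      · rw [hV']
        dsimp only
        rw [if_pos]
        intro i _
        rw [hWx, dl_bits, ent_map (hne _)]
        have h3 := hwf _ (hl2 _ _ (ent_mem (hne x.length) i))
        rw [List.take_of_length_le h3.1]
        exact h3.2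
    · rintro ⟨w, _, h2⟩
      by_contra hL
      obtain ⟨r, hr, h3⟩ := hl3 x.length x rfl
      obtain ⟨i, hi, h4⟩ := exists_ent hr
      apply h3
      refine ⟨hL, (ent (dl w) i).take (p.eval x.length), by simp, ?_⟩
      rw [hV'] at h2
      dsimp only at h2
      by_cases h5 : ∀ i < (pairBits w (pairBits x (bits (l x.length)))).length + 1,
          V (W (i, pairBits w (pairBits x (bits (l x.length))))) = [true]
      · have h6 := h5 i (by
          rw [hl1] at hi
          rw [A2.length_pairBits, A2.length_pairBits]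
          omega)
        rw [hWx, h4] at h6
        exact h6
      · rw [if_neg h5] at h2
        simp at h2

/-- advice for a language which is decided with advice -/
theorem advice_comp {A : Oracle} {C : Set (List Bool) → Prop} {L : Set (List Bool)}
    (hC : ∀ L', C L' → WithAdvice (IsP A) L') (h : WithAdvice C L) : WithAdvice (IsP A) L := by
  obtain ⟨L', h1, p1, hL', hh1, hL⟩ := h
  obtain ⟨L'', h2, p2, ⟨V, hV, hL''⟩, hh2, hLL⟩ := hC L' hL'
  obtain ⟨φ, hφ⟩ : ∃ φ : List Bool → List Bool, φ = fun y =>
      pairBits (pairBits (unpair y).1 (unpair (unpair y).2).1) (unpair (unpair y).2).2 := ⟨_, rfl⟩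
  have pφ : Poly φ := by
    rw [hφ]
    exact poly_pairBits (poly_pairBits (poly_u1 Poly.id) (poly_u1 (poly_u2 Poly.id)))
      (poly_u2 (poly_u2 Poly.id))
  refine ⟨{y | V (φ y) = [true]}, fun n => pairBits (h1 n) (h2 (2 * n + 1 + (h1 n).length)),
    Polynomial.C 2 * p1 + Polynomial.C 1 + p2.comp (Polynomial.C 2 * Polynomial.X +
      Polynomial.C 1 + p1), ⟨fun y => V (φ y), IsFP.comp hV (IsFP.of_poly pφ), fun x => Iff.rfl⟩,
    ?_, ?_⟩
  · intro n
    rw [A2.length_pairBits]
    have h3 := hh1 n
    have h4 := hh2 (2 * n + 1 + (h1 n).length)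
    have h5 := eval_mono p2 (Nat.add_le_add_left h3 (2 * n + 1))
    simp only [Polynomial.eval_add, Polynomial.eval_mul, Polynomial.eval_C, Polynomial.eval_X,
      Polynomial.eval_comp]
    omega
  · intro x
    rw [hL x, hLL, hL'']
    rw [Set.mem_ofPred_eq, hφ]
    dsimp only
    simp only [unpair_pairBits]
    have h3 : (pairBits x (h1 x.length)).length = 2 * x.length + 1 + (h1 x.length).length := by
      rw [A2.length_pairBits]
      ring
    rw [h3]

end Pool.Agent.W900.CH
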