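import Pool.Agent.W900.CH.Hit
import Pool.Agent.W900.SP.Left
import Pool.Agent.H620R2.Gauge2.Defs
import Pool.Agent.H620R2.Gauge.C

/-!
# A sparse oracle which contains the advice for countably many languages
-/

set_option autoImplicit false

namespace Pool.Agent.W900.CH

open Pool.Agent.NPC Pool.Agent.H620R2.Gauge Pool.Agent.H622R2
open Pool.Agent.H628R3.RO (p_replicate)
open Pool.Agent.W900.SP (poly_u1 poly_u2 isFP_join)
open Pool.Agent.W900.SP (join)

attribute [local irreducible] unpair

/-- the questions for the advice -/
def cd (e n j : ℕ) (b : Bool) : List Bool :=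
  pairBits (List.replicate e true) (pairBits (List.replicate n true)
    (pairBits (List.replicate j true) [b]))

theorem cd_inj {e n j e' n' j' : ℕ} {b b' : Bool} (h : cd e n j b = cd e' n' j' b') :
    e = e' ∧ n = n' ∧ j = j' ∧ b = b' := by
  unfold cd at h
  have h1 := congrArg unpair h
  rw [unpair_pairBits, unpair_pairBits, Prod.mk.injEq] at h1
  have h2 := congrArg unpair h1.2
  rw [unpair_pairBits, unpair_pairBits, Prod.mk.injEq] at h2
  have h3 := congrArg unpair h2.2
  rw [unpair_pairBits, unpair_pairBits, Prod.mk.injEq] at h3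
  have e1 := congrArg List.length h1.1
  have e2 := congrArg List.length h2.1
  have e3 := congrArg List.length h3.1
  simp only [List.length_replicate] at e1 e2 e3
  have e4 := h3.2
  simp only [List.cons.injEq, and_true] at e4
  exact ⟨e1, e2, e3, e4⟩

theorem length_cd (e n j : ℕ) (b : Bool) :
    e ≤ (cd e n j b).length ∧ n ≤ (cd e n j b).length ∧ j ≤ (cd e n j b).length := by
  unfold cd
  simp only [A2.length_pairBits, List.length_replicate, List.length_cons, List.length_nil]
  omega

theorem take_eq (h : List Bool) (m : ℕ) :
    (((List.range m).map (fun j => (decide (j < h.length), (h[j]?).getD false))).filter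
      (fun q => q.1)).map (fun q => q.2) = h.take m := by
  induction m with
  | zero => simp
  | succ m ih =>
    rw [List.range_succ, List.map_append, List.filter_append, List.map_append, ih,
      List.take_add_one]
    congr 1
    by_cases hm : m < h.length
    · simp [hm]
    · simp [hm]

/-- The advice for countably many languages can be put into a sparse oracle. -/
theorem sparse_of_advice {A : Oracle} (La : ℕ → Set (List Bool))
    (h : ∀ e, WithAdvice (IsP A) (La e)) :
    ∃ S : Oracle, Sparse S ∧ ∀ e, IsP (join A S) (La e) := by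
  classical
  choose L' hh p hP hlen hL using h
  obtain ⟨S, hS⟩ : ∃ S : Oracle, S = fun y => decide (∃ e n j,
      (y = cd e n j false ∧ j < (hh e n).length) ∨
      (y = cd e n j true ∧ (hh e n)[j]? = some true)) := ⟨_, rfl⟩
  have hS0 : ∀ e n j, S (cd e n j false) = decide (j < (hh e n).length) := by
    intro e n j
    rw [hS]
    dsimp only
    apply decide_eq_decide.2
    constructor
    · rintro ⟨e', n', j', ⟨h1, h2⟩ | ⟨h1, h2⟩⟩
      · obtain ⟨rfl, rfl, rfl, _⟩ := cd_inj h1
        exact h2
      · obtain ⟨_, _, _, h3⟩ := cd_inj h1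
        simp at h3
    · intro h1
      exact ⟨e, n, j, Or.inl ⟨rfl, h1⟩⟩
  have hS1 : ∀ e n j, S (cd e n j true) = ((hh e n)[j]?).getD false := by
    intro e n j
    have h0 : S (cd e n j true) = decide ((hh e n)[j]? = some true) := by
      rw [hS]
      dsimp only
      apply decide_eq_decide.2
      constructor
      · rintro ⟨e', n', j', ⟨h1, h2⟩ | ⟨h1, h2⟩⟩
        · obtain ⟨_, _, _, h3⟩ := cd_inj h1
          simp at h3
        · obtain ⟨rfl, rfl, rfl, _⟩ := cd_inj h1
          exact h2
      · intro h1
        exact ⟨e, n, j, Or.inr ⟨rfl, h1⟩⟩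
    rw [h0]
    rcases (hh e n)[j]? with _ | b
    · simp
    · cases b <;> simp
  refine ⟨S, ?_, fun e => ?_⟩
  · -- sparse
    refine ⟨Polynomial.C 2 * (Polynomial.X + 1) ^ 3, fun N => ?_⟩
    have h1 : {x : List Bool | x.length ≤ N ∧ S x = true} ⊆
        ((Finset.range (N + 1) ×ˢ Finset.range (N + 1) ×ˢ Finset.range (N + 1) ×ˢ
          (Finset.univ : Finset Bool)).image (fun q => cd q.1 q.2.1 q.2.2.1 q.2.2.2) :
            Finset (List Bool)) := by
      rintro x ⟨hx, hSx⟩
      rw [hS] at hSx
      have h2 := of_decide_eq_true hSx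
      obtain ⟨e, n, j, h3⟩ := h2
      have h4 : ∃ b, x = cd e n j b := by
        rcases h3 with ⟨h3, _⟩ | ⟨h3, _⟩
        · exact ⟨_, h3⟩
        · exact ⟨_, h3⟩
      obtain ⟨b, rfl⟩ := h4
      obtain ⟨h5, h6, h7⟩ := length_cd e n j b
      rw [Finset.mem_coe, Finset.mem_image]
      refine ⟨(e, n, j, b), ?_, rfl⟩
      simp only [Finset.mem_product, Finset.mem_range, Finset.mem_univ, and_true]
      omega
    have h2 := Set.ncard_le_ncard h1 (Finset.finite_toSet _)
    rw [Set.ncard_coe_finset] at h2
    refine h2.trans (Finset.card_image_le.trans (le_of_eq ?_))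
    simp only [Finset.card_product, Finset.card_range, Finset.card_univ, Fintype.card_bool,
      Polynomial.eval_mul, Polynomial.eval_pow, Polynomial.eval_add, Polynomial.eval_X,
      Polynomial.eval_one, Polynomial.eval_C]
    ring
  · -- the algorithm
    obtain ⟨V, hV, hV'⟩ := hP e
    obtain ⟨Q, hQ⟩ : ∃ Q : Bool → List Bool → List (List Bool), Q = fun b x =>
        (List.range ((p e).eval x.length)).map
          (fun j => true :: cd e x.length (min j ((p e).eval x.length)) b) := ⟨_, rfl⟩
    have hq : ∀ b : Bool, Poly (Q b) := by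
      intro b
      rw [hQ]
      have e0 : UPoly (fun x : List Bool × ℕ => (p e).eval x.1.length) :=
        (UPoly.length (Poly.fst Poly.id)).eval (p e)
      have e1 : UPoly (fun x : List Bool × ℕ => min x.2 ((p e).eval x.1.length)) :=
        UPoly.of_le (Poly.min (Poly.snd Poly.id) e0.toPoly) e0 fun x => min_le_right _ _
      have e2 : Poly (fun x : List Bool × ℕ =>
          true :: cd e x.1.length (min x.2 ((p e).eval x.1.length)) b) := by
        refine Poly.cons (NPC.Poly.const _) ?_
        unfold cd
        exact poly_pairBits (NPC.Poly.const _) (poly_pairBits (p_replicate (UPoly.length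
          (Poly.fst Poly.id)) true) (poly_pairBits (p_replicate e1 true) (NPC.Poly.const _)))
      exact NPC.Poly.map (F := fun (x : List Bool) (j : ℕ) =>
        true :: cd e x.length (min j ((p e).eval x.length)) b)
        (UPoly.range ((UPoly.length Poly.id).eval (p e))) e2
    have hF : ∀ b : Bool, IsFP (join A S) (fun x => (Q b x).map (join A S)) := fun b =>
      IsFP.tt (H := fun q => q.2) (hq b) (Poly.snd Poly.id)
    obtain ⟨φ, hφ⟩ : ∃ φ : List Bool → List Bool, φ = fun z =>
        pairBits (unpair z).1 ((((unpair (unpair z).2).1.zip (unpair (unpair z).2).2).filter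
          (fun q => q.1)).map (fun q => q.2)) := ⟨_, rfl⟩
    have pφ : Poly φ := by
      rw [hφ]
      refine poly_pairBits (poly_u1 Poly.id) (NPC.Poly.map (F := fun _ (q : Bool × Bool) => q.2)
        (NPC.Poly.filter (p := fun _ (q : Bool × Bool) => q.1) (Poly.zip (poly_u1 (poly_u2 Poly.id))
          (poly_u2 (poly_u2 Poly.id))) (Poly.fst (Poly.snd Poly.id))) (Poly.snd (Poly.snd Poly.id)))
    refine ⟨fun x => V (φ (pairBits x (pairBits ((Q false x).map (join A S))
      ((Q true x).map (join A S))))), ?_, fun x => ?_⟩
    · refine IsFP.comp (isFP_join S hV) (IsFP.comp (IsFP.of_poly pφ) ?_)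
      exact IsFP.pair (IsFP.of_poly Poly.id) (IsFP.pair (hF false) (hF true))
    · rw [hL e x, hV']
      have h1 : φ (pairBits x (pairBits ((Q false x).map (join A S))
          ((Q true x).map (join A S)))) = pairBits x (hh e x.length) := by
        rw [hφ]
        dsimp only
        rw [unpair_pairBits]
        dsimp only
        rw [unpair_pairBits]
        dsimp only
        congr 1
        have h2 : ∀ b, (Q b x).map (join A S) = (List.range ((p e).eval x.length)).map
            (fun j => S (cd e x.length j b)) := by
          intro b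
          rw [hQ]
          dsimp only
          rw [List.map_map]
          apply List.map_congr_left
          intro j hj
          rw [List.mem_range] at hj
          rw [Function.comp_apply, min_eq_left hj.le]
          rfl
        rw [h2, h2, List.zip_map']
        have h3 : (fun j => (S (cd e x.length j false), S (cd e x.length j true))) =
            fun j => (decide (j < (hh e x.length).length), ((hh e x.length)[j]?).getD false) := by
          funext j
          rw [hS0, hS1]
        rw [h3, take_eq, List.take_of_length_le (hlen e x.length)]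
      dsimp only
      rw [h1]

/-- The same for a countable class of languages. -/
theorem sparse_hard {A : Oracle} {C : Set (Set (List Bool))} (hc : C.Countable)
    (h : ∀ L ∈ C, WithAdvice (IsP A) L) :
    ∃ S : Oracle, Sparse S ∧ ∀ L ∈ C, IsP (join A S) L := by
  rcases C.eq_empty_or_nonempty with h0 | h0
  · subst h0
    exact ⟨fun _ => false, ⟨0, fun n => by simp⟩, fun L hL => absurd hL (by simp)⟩
  · obtain ⟨La, hLa⟩ := hc.exists_eq_range h0
    obtain ⟨S, hS, h1⟩ := sparse_of_advice (A := A) La fun e => h _ (hLa ▸ Set.mem_range_self e)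
    refine ⟨S, hS, fun L hL => ?_⟩
    rw [hLa] at hL
    obtain ⟨e, rfl⟩ := hL
    exact h1 e

/-- nondeterministic polynomial time is countable -/
theorem countable_np (A : Oracle) : {L | IsNP A L}.Countable := by
  classical
  have h1 := CC.poly_countable
  refine (Set.countable_range (fun q : Alg × Polynomial ℕ => {x : List Bool |
    ∃ w : List Bool, w.length ≤ q.2.eval x.length ∧
      q.1.out A (pairBits w x) = some [true]})).mono ?_
  rintro L ⟨V, p, ⟨M, hM⟩, hL⟩
  refine ⟨(M, p), ?_⟩
  ext x
  rw [hL x]
  simp only [Set.mem_ofPred_eq, hM, Option.some.injEq]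

/-- exponential time is countable -/
theorem countable_exp (A : Oracle) : {L | IsEXP A L}.Countable := by
  classical
  refine (Set.countable_range (fun M : Alg => {x : List Bool |
    M.run A x (2 ^ M.p.eval x.length) [] = some [true]})).mono ?_
  rintro L ⟨M, hM⟩
  refine ⟨M, ?_⟩
  ext x
  obtain ⟨z, hz, hx⟩ := hM x
  rw [Set.mem_ofPred_eq, hz, hx, Option.some.injEq]

end Pool.Agent.W900.CH
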