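import Pool.Agent.W900.CH.PLev
import Pool.Agent.H622R2.Exp.K1

/-!
# Every oracle can be changed at few strings such that `E` and `ESPACE` are equal
-/

set_option autoImplicit false

namespace Pool.Agent.W900.CH

open Pool.Agent.NPC Pool.Agent.H620R2.Gauge Pool.Agent.H622R2.Exp
open Filter

/-- The number of the strings of length at most `n` in the set `Z`. -/
noncomputable def census (Z : Set (List Bool)) (n : ℕ) : ℕ :=
  Set.ncard {x : List Bool | x ∈ Z ∧ x.length ≤ n}

theorem finite_census (Z : Set (List Bool)) (n : ℕ) :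
    {x : List Bool | x ∈ Z ∧ x.length ≤ n}.Finite :=
  (finite_short n).subset fun _ h => h.2

theorem dist_le_census {O A : Oracle} {Z : Set (List Bool)} (h : ∀ y ∉ Z, A y = O y) (n : ℕ) :
    dist O A n ≤ census Z n := by
  refine Set.ncard_le_ncard (fun x hx => ⟨?_, hx.1⟩) (finite_census Z n)
  by_contra hc
  exact hx.2 (h x hc)

open Classical in
theorem census_le (Z : Set (List Bool)) (n : ℕ) :
    census Z n ≤ ((Finset.range (2 ^ (n + 1))).filter (fun i => str i ∈ Z)).card := by
  unfold census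
  rw [← Set.ncard_coe_finset]
  refine Set.ncard_le_ncard_of_injOn idx ?_ ?_ (Finset.finite_toSet _)
  · rintro x ⟨hd, hx⟩
    rw [Finset.mem_coe, Finset.mem_filter, Finset.mem_range, str_idx]
    refine ⟨?_, hd⟩
    have h1 := idx_lt x
    have h2 : 2 ^ (x.length + 1) ≤ 2 ^ (n + 1) :=
      Nat.pow_le_pow_right (by norm_num) (Nat.succ_le_succ hx)
    omega
  · intro x _ y _ hxy
    have := congrArg str hxy
    rwa [str_idx, str_idx] at this

open Classical in
/-- There is a thin set of strings at which all oracles can be changed such that `E` and `ESPACE`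
are equal. -/
theorem exists_thin_E {ε : ℝ} (hε : 0 < ε) : ∃ Z : Set (List Bool),
    (∀ᶠ n : ℕ in atTop, (census Z n : ℝ) ≤ (n : ℝ) ^ ε) ∧
    ∀ O : Oracle, ∃ A : Oracle, (∀ y ∉ Z, A y = O y) ∧ ∀ L, InSpace Lin A L → InTime Lin A L := by
  obtain ⟨K, hK⟩ := count_Lin (half_pos hε)
  obtain ⟨r, hr, hgr, hP⟩ := exists_codingE good_Lin
    (fun e => Polynomial.C (K * (e + 1)) * (Polynomial.X + 1)) (fun e => ⟨K * (e + 1), rfl⟩)
  obtain ⟨Φ, hΦ1, hΦ2⟩ := hP (fun _ _ => True)
  have hr2 : ∀ e n, K * (n + e + 1) ≤ (r e).eval n := by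
    intro e n
    refine le_trans ?_ (hgr e n)
    simp only [Polynomial.eval_mul, Polynomial.eval_C, Polynomial.eval_add, Polynomial.eval_X,
      Polynomial.eval_one]
    rw [mul_assoc]
    apply Nat.mul_le_mul_left
    nlinarith [Nat.zero_le (e * n)]
  refine ⟨{y | ∃ e x, y = codeE (r e) e x}, ?_, fun O => ⟨Φ O, ?_, ?_⟩⟩
  · have h1 : ∀ᶠ n : ℕ in atTop, (((Finset.range (2 ^ (n + 1))).filter
        (fun i => ∃ e x, str i = codeE (r e) e x)).card : ℝ) ≤
          (Real.logb 2 ((2 ^ (n + 1) : ℕ) : ℝ)) ^ (ε / 2) :=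
      ((tendsto_pow_atTop_atTop_of_one_lt (by norm_num : 1 < 2)).comp
        (tendsto_add_atTop_nat 1)).eventually (hK r hr2)
    filter_upwards [h1, eventually_ge_atTop 2] with n h2 h4
    have h6 : (census {y | ∃ e x, y = codeE (r e) e x} n : ℝ) ≤
        (((Finset.range (2 ^ (n + 1))).filter
        (fun i => ∃ e x, str i = codeE (r e) e x)).card : ℝ) := by
      exact_mod_cast census_le _ n
    refine h6.trans (h2.trans ?_)
    have h7 : Real.logb 2 ((2 ^ (n + 1) : ℕ) : ℝ) = (n : ℝ) + 1 := by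
      push_cast
      rw [Real.logb_pow, Real.logb_self_eq_one (by norm_num), mul_one]
      push_cast
      ring
    rw [h7]
    have h8 : (2 : ℝ) ≤ n := by exact_mod_cast h4
    calc ((n : ℝ) + 1) ^ (ε / 2) ≤ ((n : ℝ) ^ (2 : ℝ)) ^ (ε / 2) := by
          apply Real.rpow_le_rpow (by positivity) _ (half_pos hε).le
          rw [Real.rpow_two]
          nlinarith
      _ = (n : ℝ) ^ ε := by
          rw [← Real.rpow_mul (by positivity)]
          congr 1
          ring
  · intro y hy
    apply hΦ1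
    intro e x _ hyx
    exact hy ⟨e, x, hyx⟩
  · intro L hL
    obtain ⟨e, he⟩ := hΦ2 O L hL
    have hLe : L = {x | Φ O (codeE (r e) e x) = true} := by
      ext x
      exact he x trivial
    rw [hLe]
    exact inTime_code good_Lin (Φ O) (hr e) e

/-- Every oracle can be changed at few strings such that `E` and `ESPACE` are equal. -/
theorem exists_close_E {g : ℕ → ℝ}
    (hg : ¬ ∀ ε : ℝ, 0 < ε → ∃ᶠ n : ℕ in atTop, g n ≤ (n : ℝ) ^ ε) (O : Oracle) :
    ∃ A, Close g O A ∧ ∀ L, InSpace Lin A L → InTime Lin A L := by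
  push Not at hg
  obtain ⟨ε, hε, hg⟩ := hg
  obtain ⟨Z, hZ, h⟩ := exists_thin_E hε
  obtain ⟨A, hA, hE⟩ := h O
  refine ⟨A, ?_, hE⟩
  filter_upwards [hZ, hg] with n h1 h2
  have h3 : (dist O A n : ℝ) ≤ census Z n := by exact_mod_cast dist_le_census hA n
  exact h3.trans (h1.trans h2.le)

end Pool.Agent.W900.CH
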