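import Pool.Agent.W900.CH.EPos
import Pool.Agent.W900.CH.NELev
import Pool.Agent.H249R3.Gau.NE
import Pool.Agent.H249R3.Gau.Alt

/-!
# Changes on a thin set of strings
-/

set_option autoImplicit false

namespace Pool.Agent.W900.CH

open Pool.Agent.NPC Pool.Agent.H620R2.Gauge Pool.Agent.H622R2.Exp
open Filter MeasureTheory
open Pool.Agent.H628R3.RO (randomOracle)

open Classical in
/-- Changes on a thin set do not lead into a null set. -/
theorem ae_thin {S : Set Oracle} {Z : Set (List Bool)}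
    (hS : Null (fun N => (census Z (Nat.log 2 N) : ℝ)) S) :
    ∀ᵐ O ∂randomOracle, ∀ A : Oracle, (∀ y ∉ Z, A y = O y) → A ∉ S := by
  rw [ae_iff]
  refine measure_mono_null ?_ (measure_far hS
    {O | ∃ A ∈ S, ∀ y ∉ Z, A y = O y} (fun N =>
    ((Finset.range N).filter (fun i => str i ∈ Z)).powerset) (fun N => ?_) ?_)
  · intro O hO
    rw [Set.mem_ofPred_eq] at hO
    push Not at hO
    obtain ⟨A, h1, h2⟩ := hO
    exact ⟨A, h2, h1⟩
  · rw [Finset.card_powerset]
    have h1 : ((Finset.range N).filter (fun i => str i ∈ Z)).card ≤ census Z (Nat.log 2 N) := by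
      unfold census
      rw [← Set.ncard_coe_finset]
      refine Set.ncard_le_ncard_of_injOn str ?_ (str_injective.injOn) (finite_census Z _)
      intro i hi
      rw [Finset.mem_coe, Finset.mem_filter, Finset.mem_range] at hi
      exact ⟨hi.2, length_str_le_log hi.1⟩
    push_cast
    rw [← Real.rpow_natCast]
    apply Real.rpow_le_rpow_of_exponent_le (by norm_num)
    exact_mod_cast h1
  · rintro O ⟨A, hA, h⟩
    refine ⟨A, hA, fun N => ?_⟩
    rw [Finset.mem_powerset]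
    intro i hi
    unfold diffN at hi
    rw [Finset.mem_filter] at hi ⊢
    refine ⟨hi.1, ?_⟩
    by_contra hc
    exact hi.2 (h _ hc)

/-- the frequency, along the powers of two -/
theorem freq_pow {Z : Set (List Bool)} {F : ℝ → ℝ}
    (h : ∃ᶠ n : ℕ in atTop, (census Z n : ℝ) ≤ F n) :
    ∃ᶠ N : ℕ in atTop, (census Z (Nat.log 2 N) : ℝ) ≤ F (Real.logb 2 N) := by
  have h1 : ∃ᶠ n : ℕ in atTop, (census Z (Nat.log 2 (2 ^ n)) : ℝ) ≤
      F (Real.logb 2 ((2 ^ n : ℕ) : ℝ)) := by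
    refine h.mono fun n hn => ?_
    rw [Nat.log_pow (by norm_num)]
    have h7 : Real.logb 2 ((2 ^ n : ℕ) : ℝ) = n := by
      push_cast
      rw [Real.logb_pow, Real.logb_self_eq_one (by norm_num), mul_one]
    rw [h7]
    exact hn
  exact (tendsto_pow_atTop_atTop_of_one_lt (by norm_num)).frequently h1

theorem close_of_thin {Z : Set (List Bool)} {g : ℕ → ℝ}
    (hZ : ∀ᶠ n : ℕ in atTop, (census Z n : ℝ) ≤ g n) {O A : Oracle} (h : ∀ y ∉ Z, A y = O y) :
    Close g O A := by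
  filter_upwards [hZ] with n h1
  have h3 : (dist O A n : ℝ) ≤ census Z n := by exact_mod_cast dist_le_census h n
  exact h3.trans h1

/-- few changes in the sense of polynomial time -/
theorem cond_of_pow {g : ℕ → ℝ} {c : ℝ} (hc : 0 < c) (hg : ∀ᶠ n : ℕ in atTop, g n ≤ (n : ℝ) ^ c) :
    ∀ ε : ℝ, 0 < ε → ∃ᶠ n : ℕ in atTop, g n ≤ 2 ^ (n : ℝ) ^ ε := by
  intro ε hε
  apply Eventually.frequently
  have h1 := (tendsto_natCast_atTop_atTop (R := ℝ)).eventually
    (logb_le_rpow (half_pos hε))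
  have h2 := (tendsto_natCast_atTop_atTop (R := ℝ)).eventually
    ((tendsto_rpow_atTop (half_pos hε)).eventually_ge_atTop c)
  filter_upwards [hg, h1, h2, eventually_ge_atTop 1] with n h3 h4 h5 h6
  refine h3.trans ?_
  have h7 : (0 : ℝ) < n := by exact_mod_cast h6
  have h8 : (n : ℝ) ^ c = 2 ^ (Real.logb 2 n * c) := by
    rw [Real.rpow_mul (by norm_num), Real.rpow_logb (by norm_num) (by norm_num) h7]
  rw [h8]
  apply Real.rpow_le_rpow_of_exponent_le (by norm_num)
  have h9 : (n : ℝ) ^ ε = (n : ℝ) ^ (ε / 2) * (n : ℝ) ^ (ε / 2) := by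
    rw [← Real.rpow_add h7]
    congr 1
    ring
  rw [h9]
  have h10 : (0 : ℝ) ≤ (n : ℝ) ^ (ε / 2) := by positivity
  calc Real.logb 2 n * c ≤ (n : ℝ) ^ (ε / 2) * c := mul_le_mul_of_nonneg_right h4 hc.le
    _ ≤ (n : ℝ) ^ (ε / 2) * (n : ℝ) ^ (ε / 2) := mul_le_mul_of_nonneg_left h5 h10

open Classical in
/-- There is a thin set of strings at which all oracles can be changed such that `NE` is closed
under complement. -/
theorem exists_thin_NE {ε : ℝ} (hε : 0 < ε) : ∃ Z : Set (List Bool),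
    (∀ᶠ n : ℕ in atTop, (census Z n : ℝ) ≤ ε * Real.logb 2 n) ∧
    ∀ O : Oracle, ∃ A : Oracle, (∀ y ∉ Z, A y = O y) ∧
      ∀ L, InNTime Lin A L → InNTime Lin A Lᶜ := by
  obtain ⟨K, hK⟩ := sumC_Lin (half_pos hε)
  obtain ⟨d, r, Φ, hr, hgr, hΦ1, hΦ2⟩ := exists_codingC good_Lin (fun k => 2 ^ k)
    (fun _ k => 2 ^ k + 1) (fun _ e => Polynomial.C (K * 4 ^ e) * (Polynomial.X + 1))
    (fun _ e => ⟨K * 4 ^ e, rfl⟩)
  have hr2 : ∀ e n, K * 4 ^ e * (n + 1) ≤ (r e).eval n := by
    intro e n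
    refine le_trans (le_of_eq ?_) (hgr e n)
    simp only [Polynomial.eval_mul, Polynomial.eval_C, Polynomial.eval_add, Polynomial.eval_X,
      Polynomial.eval_one]
  refine ⟨{y | ∃ e k i, i < 2 ^ k + 1 ∧ y = codeC (r e) (fun k => 2 ^ k) e k i}, ?_,
    fun O => ⟨Φ O, ?_, ?_⟩⟩
  · have h1 := ((tendsto_pow_atTop_atTop_of_one_lt (by norm_num : 1 < 2)).comp
        (tendsto_add_atTop_nat 1)).eventually (hK r hr2)
    filter_upwards [h1, eventually_ge_atTop 2] with n h2 h4
    have h3 := countC_le d r (fun k => 2 ^ k) (fun _ k => 2 ^ k + 1) (2 ^ (n + 1))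
    have h6 := census_le {y | ∃ e k i, i < 2 ^ k + 1 ∧ y = codeC (r e) (fun k => 2 ^ k) e k i} n
    have h7 : Real.logb 2 ((2 ^ (n + 1) : ℕ) : ℝ) = (n : ℝ) + 1 := by
      push_cast
      rw [Real.logb_pow, Real.logb_self_eq_one (by norm_num), mul_one]
      push_cast
      ring
    have h8 : (2 : ℝ) ≤ n := by exact_mod_cast h4
    have h9 : Real.logb 2 ((n : ℝ) + 1) ≤ 2 * Real.logb 2 n := by
      have h10 : 2 * Real.logb 2 (n : ℝ) = Real.logb 2 ((n : ℝ) ^ 2) := by
        rw [Real.logb_pow]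
        push_cast
        ring
      rw [h10]
      apply Real.logb_le_logb_of_le (by norm_num) (by positivity)
      nlinarith
    have h11 : (census {y | ∃ e k i, i < 2 ^ k + 1 ∧ y = codeC (r e) (fun k => 2 ^ k) e k i} n : ℝ)
        ≤ ε / 2 * Real.logb 2 (Real.logb 2 ((2 ^ (n + 1) : ℕ) : ℝ)) :=
      (Nat.cast_le.2 (h6.trans h3)).trans h2
    rw [h7] at h11
    nlinarith
  · intro y hy
    apply hΦ1
    intro e k i hi hyx
    exact hy ⟨e, k, i, hi, hyx⟩
  · intro L hL
    obtain ⟨e, V, q, -, hV, hq, hL', hA⟩ := hΦ2 O L 0 hL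
    obtain ⟨c, hc⟩ := hq
    obtain ⟨c', hc'⟩ := hr e
    refine compl_of_census hV hL' e (r e)
      (Polynomial.C (2 + 2 * c + 2 * c' + 6) * (Polynomial.X + 1)) ⟨_, rfl⟩ (fun k => 2 ^ k)
      (fun k => 2 ^ k + 1) Nat.size KAux.upoly_size KAux.upoly_two_pow_size
      (KAux.upoly_two_pow_size.add (UPoly.const 1)) (fun n => (Nat.lt_size_self n).le) ?_
      (fun n => KAux.cens_lt L _) hA
    intro n
    refine (KAux.len_le q (r e) (KAux.two_pow_size_le n)).trans ?_
    apply Nat.pow_le_pow_right (by norm_num)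
    rw [hc, hc']
    simp only [Polynomial.eval_mul, Polynomial.eval_C, Polynomial.eval_add, Polynomial.eval_X,
      Polynomial.eval_one]
    nlinarith [Nat.zero_le (c * n), Nat.zero_le (c' * n)]

open Classical in
/-- There is a thin set of strings at which all oracles can be changed such that `NEXP` is closed
under complement. -/
theorem exists_thin_NEXP {ε : ℝ} (hε : 0 < ε) : ∃ Z : Set (List Bool),
    (∀ᶠ n : ℕ in atTop, (census Z n : ℝ) ≤ (Real.logb 2 n) ^ ε) ∧
    ∀ O : Oracle, ∃ A : Oracle, (∀ y ∉ Z, A y = O y) ∧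
      ∀ L, InNTime Pol A L → InNTime Pol A Lᶜ := by
  obtain ⟨K, hK⟩ := sumC_Pol (half_pos hε)
  obtain ⟨d, r, Φ, hr, hgr, hΦ1, hΦ2⟩ := exists_codingC good_Pol (fun k => 2 ^ k)
    (fun _ k => 2 ^ k + 1) (fun _ e => (Polynomial.X + Polynomial.C (e + 1)) ^ K)
    (fun _ e => Set.mem_univ _)
  have hr2 : ∀ e n, (n + e + 1) ^ K ≤ (r e).eval n := by
    intro e n
    refine le_trans (le_of_eq ?_) (hgr e n)
    simp only [Polynomial.eval_pow, Polynomial.eval_C, Polynomial.eval_add, Polynomial.eval_X]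
    rw [add_assoc]
  refine ⟨{y | ∃ e k i, i < 2 ^ k + 1 ∧ y = codeC (r e) (fun k => 2 ^ k) e k i}, ?_,
    fun O => ⟨Φ O, ?_, ?_⟩⟩
  · have h1 := ((tendsto_pow_atTop_atTop_of_one_lt (by norm_num : 1 < 2)).comp
        (tendsto_add_atTop_nat 1)).eventually (hK r hr2)
    filter_upwards [h1, eventually_ge_atTop 4] with n h2 h4
    have h3 := countC_le d r (fun k => 2 ^ k) (fun _ k => 2 ^ k + 1) (2 ^ (n + 1))
    have h6 := census_le {y | ∃ e k i, i < 2 ^ k + 1 ∧ y = codeC (r e) (fun k => 2 ^ k) e k i} n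
    have h7 : Real.logb 2 ((2 ^ (n + 1) : ℕ) : ℝ) = (n : ℝ) + 1 := by
      push_cast
      rw [Real.logb_pow, Real.logb_self_eq_one (by norm_num), mul_one]
      push_cast
      ring
    have h8 : (4 : ℝ) ≤ n := by exact_mod_cast h4
    have h9 : Real.logb 2 ((n : ℝ) + 1) ≤ 2 * Real.logb 2 n := by
      have h10 : 2 * Real.logb 2 (n : ℝ) = Real.logb 2 ((n : ℝ) ^ 2) := by
        rw [Real.logb_pow]
        push_cast
        ring
      rw [h10]
      apply Real.logb_le_logb_of_le (by norm_num) (by positivity)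
      nlinarith
    have h12 : 2 ≤ Real.logb 2 (n : ℝ) := by
      rw [Real.le_logb_iff_rpow_le (by norm_num) (by linarith)]
      norm_num
      exact_mod_cast h4
    have h11 : (census {y | ∃ e k i, i < 2 ^ k + 1 ∧ y = codeC (r e) (fun k => 2 ^ k) e k i} n : ℝ)
        ≤ (Real.logb 2 (Real.logb 2 ((2 ^ (n + 1) : ℕ) : ℝ))) ^ (ε / 2) :=
      (Nat.cast_le.2 (h6.trans h3)).trans h2
    rw [h7] at h11
    refine h11.trans ?_
    have h13 : 0 ≤ Real.logb 2 ((n : ℝ) + 1) := Real.logb_nonneg (by norm_num) (by linarith)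
    calc (Real.logb 2 ((n : ℝ) + 1)) ^ (ε / 2)
        ≤ ((Real.logb 2 (n : ℝ)) ^ (2 : ℝ)) ^ (ε / 2) := by
          apply Real.rpow_le_rpow h13 _ (half_pos hε).le
          rw [Real.rpow_two]
          nlinarith
      _ = (Real.logb 2 (n : ℝ)) ^ ε := by
          rw [← Real.rpow_mul (by linarith)]
          congr 1
          ring
  · intro y hy
    apply hΦ1
    intro e k i hi hyx
    exact hy ⟨e, k, i, hi, hyx⟩
  · intro L hL
    obtain ⟨e, V, q, -, hV, -, hL', hA⟩ := hΦ2 O L 0 hL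
    refine compl_of_census hV hL' e (r e)
      ((2 * Polynomial.X + 1) + q.comp (2 * Polynomial.X + 1) +
        (r e).comp (2 * Polynomial.X + 1) + 6) (Set.mem_univ _) (fun k => 2 ^ k)
      (fun k => 2 ^ k + 1) Nat.size KAux.upoly_size KAux.upoly_two_pow_size
      (KAux.upoly_two_pow_size.add (UPoly.const 1)) (fun n => (Nat.lt_size_self n).le) ?_
      (fun n => KAux.cens_lt L _) hA
    intro n
    refine (KAux.len_le q (r e) (KAux.two_pow_size_le n)).trans (le_of_eq ?_)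
    congr 1
    simp [Polynomial.eval_comp]

end Pool.Agent.W900.CH
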