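import Pool.Agent.W900.CH.Thin
import Pool.Agent.H529R3.Lev.Main

/-!
# Changes on a thin set of strings and the levels of the polynomial space-time hierarchy
-/

set_option autoImplicit false

namespace Pool.Agent.W900.CH

open Pool.Agent.NPC Pool.Agent.H620R2.Gauge H529R3.Lev
open Filter MeasureTheory
open Pool.Agent.H628R3.RO (randomOracle)

/-- Changes on a thin set do not collapse the level `m`. -/
theorem ae_thin_level (m : ℕ) {Z : Set (List Bool)}
    (hZ : ∀ ε : ℝ, 0 < ε → ∃ᶠ n : ℕ in atTop,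
      (census Z n : ℝ) ≤ 2 ^ ((Real.logb 2)^[m] (n : ℝ)) ^ ε) :
    ∀ᵐ O ∂randomOracle, ∀ A : Oracle, (∀ y ∉ Z, A y = O y) →
      ∃ L, IsSpace m A L ∧ ¬ IsTHpoly m A L := by
  have h := ae_thin (S := {A : Oracle | ∀ L, IsSpace m A L → IsTHpoly m A L}) (Z := Z)
    (null_level m _ (fun ε hε => by
      have h1 := freq_pow (F := fun y => 2 ^ ((Real.logb 2)^[m] y) ^ ε) (hZ ε hε)
      refine h1.mono fun N hN => ?_
      rw [Function.iterate_succ_apply]
      exact hN) _ fun A hA => hA _ (test_space m A))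
  filter_upwards [h] with O hO A hA
  have h2 := hO A hA
  push Not at h2
  exact h2

theorem iter_succ_le (m : ℕ) : ∀ᶠ y : ℝ in atTop,
    (Real.logb 2)^[m] (y + 1) ≤ (Real.logb 2)^[m] y + 1 := by
  induction m with
  | zero => exact Eventually.of_forall fun y => le_rfl
  | succ m ih =>
    have ht : Tendsto ((Real.logb 2)^[m]) atTop atTop :=
      (Real.tendsto_logb_atTop (b := 2) (by norm_num)).iterate m
    have ht2 : Tendsto (fun y : ℝ => (Real.logb 2)^[m] (y + 1)) atTop atTop :=
      ht.comp (tendsto_atTop_add_const_right _ _ tendsto_id)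
    filter_upwards [ih, ht.eventually_ge_atTop 1, ht2.eventually_gt_atTop 0] with y h1 h2 h3
    rw [Function.iterate_succ_apply', Function.iterate_succ_apply']
    calc Real.logb 2 ((Real.logb 2)^[m] (y + 1))
        ≤ Real.logb 2 ((Real.logb 2)^[m] y * 2) := by
          apply Real.logb_le_logb_of_le (by norm_num) h3
          linarith
      _ = Real.logb 2 ((Real.logb 2)^[m] y) + 1 := by
          rw [Real.logb_mul (by linarith) (by norm_num), Real.logb_self_eq_one (by norm_num)]

/-- There is a thin set of strings at which all oracles can be changed such that the level `m`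
collapses. -/
theorem exists_thin_level (m : ℕ) {ε : ℝ} (hε : 0 < ε) : ∃ Z : Set (List Bool),
    (∀ᶠ n : ℕ in atTop, (census Z n : ℝ) ≤ 2 ^ ((Real.logb 2)^[m] (n : ℝ)) ^ ε) ∧
    ∀ O : Oracle, ∃ A : Oracle, (∀ y ∉ Z, A y = O y) ∧
      ∀ L, IsSpace m A L → IsTime m A L := by
  classical
  obtain ⟨K, hK⟩ := exists_nat_gt (1 / (ε / 2))
  have hK' : 1 < ε / 2 * K := by
    rw [div_lt_iff₀ (half_pos hε)] at hK
    linarith
  obtain ⟨R, Φ, hR, hΦ, hΦO⟩ := exists_codingL m K
  have hsp := sparseL m R hR hK'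
  refine ⟨{y | ∃ e x, y = codeL R e x}, ?_, fun O => ⟨Φ O, ?_, ?_⟩⟩
  · have h1 := ((tendsto_pow_atTop_atTop_of_one_lt (by norm_num : 1 < 2)).comp
        (tendsto_add_atTop_nat 1)).eventually hsp
    have hlog : ∀ᶠ n : ℕ in atTop, ((Real.logb 2)^[m] ((n : ℝ) + 1)) ^ (ε / 2) ≤
        ((Real.logb 2)^[m] (n : ℝ)) ^ ε := by
      have ht : Tendsto ((Real.logb 2)^[m]) atTop atTop :=
        (Real.tendsto_logb_atTop (b := 2) (by norm_num)).iterate m
      have ht2 : Tendsto (fun y : ℝ => (Real.logb 2)^[m] (y + 1)) atTop atTop :=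
        ht.comp (tendsto_atTop_add_const_right _ _ tendsto_id)
      have hc := tendsto_natCast_atTop_atTop (R := ℝ)
      filter_upwards [hc.eventually (iter_succ_le m), hc.eventually (ht.eventually_ge_atTop 2),
        hc.eventually (ht2.eventually_ge_atTop 0)] with n h1 h2 h3
      calc ((Real.logb 2)^[m] ((n : ℝ) + 1)) ^ (ε / 2)
          ≤ (((Real.logb 2)^[m] (n : ℝ)) ^ (2 : ℝ)) ^ (ε / 2) := by
            apply Real.rpow_le_rpow h3 _ (half_pos hε).le
            rw [Real.rpow_two]
            nlinarith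
        _ = ((Real.logb 2)^[m] (n : ℝ)) ^ ε := by
            rw [← Real.rpow_mul (by linarith)]
            congr 1
            ring
    filter_upwards [h1, hlog] with n h2 h3
    have h6 := census_le {y | ∃ e x, y = codeL R e x} n
    have h7 : Real.logb 2 ((2 ^ (n + 1) : ℕ) : ℝ) = (n : ℝ) + 1 := by
      push_cast
      rw [Real.logb_pow, Real.logb_self_eq_one (by norm_num), mul_one]
      push_cast
      ring
    simp only [Function.comp_apply] at h2
    rw [Function.iterate_succ_apply, h7] at h2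
    refine (Nat.cast_le.2 h6).trans (h2.trans ?_)
    exact Real.rpow_le_rpow_of_exponent_le (by norm_num) h3
  · intro y hy
    apply hΦ
    intro e x hyx
    exact hy ⟨e, x, hyx⟩
  · exact fun L hL => (hΦO O L hL).isTime

end Pool.Agent.W900.CH
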