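import Pool.Agent.W900.SP.Sim
import Pool.Agent.W900.SP.Defs
import Pool.Agent.H620R2.Gauge2.Defs

/-!
# Sparse oracles can be replaced by advice
-/

set_option autoImplicit false

namespace Pool.Agent.W900.CH

open Pool.Agent.NPC Pool.Agent.H620R2.Gauge Pool.Agent.H622R2
open Pool.Agent.W900.SP (simF isFP_simF simF_eq out_local lk_map cor lk poly_u1 poly_u2)
open Pool.Agent.W900.SP (join)

/-- The set `{x | S x = true}` is sparse: it has at most `p n` elements of length at most `n`, for
a polynomial `p`. -/
def Sparse (S : Oracle) : Prop :=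
  ∃ p : Polynomial ℕ, ∀ n : ℕ, Set.ncard {x : List Bool | x.length ≤ n ∧ S x = true} ≤ p.eval n

/-- the list with a given code -/
def dl (u : List Bool) : List (List Bool) := (unbits (List (List Bool)) u).getD []

theorem poly_dl : Poly dl := by
  have h := Poly.optCases (o := fun u : List Bool => unbits (List (List Bool)) u)
    (g := fun _ => ([] : List (List Bool))) (h := fun _ l => l) poly_unbits (NPC.Poly.const _)
    (NPC.Poly.snd NPC.Poly.id)
  refine h.congr fun u => ?_
  unfold dl
  cases unbits (List (List Bool)) u <;> rfl

theorem dl_bits (l : List (List Bool)) : dl (bits l) = l := by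
  unfold dl
  rw [unbits_bits]
  rfl

theorem sz_list_le {R : ℕ} : ∀ l : List (List Bool), (∀ y ∈ l, y.length ≤ R) →
    sz l ≤ (4 * R + 2) * l.length + 1 := by
  intro l
  induction l with
  | nil => intro _; simp
  | cons y l ih =>
    intro h
    have h1 := ih fun z hz => h z (List.mem_cons_of_mem _ hz)
    have h2 : sz y ≤ 4 * y.length + 1 := by
      clear ih h h1
      induction y with
      | nil => simp
      | cons b y ihy =>
        rw [sz_list_cons, List.length_cons]
        have := sz_bool_le b
        omega
    have h3 := h y List.mem_cons_self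
    rw [sz_list_cons, List.length_cons]
    have h4 : 4 * y.length ≤ 4 * R := Nat.mul_le_mul_left _ h3
    rw [Nat.mul_add]
    omega

/-- A sparse oracle can be replaced by polynomial advice. -/
theorem advice_of_sparse {O S : Oracle} (hS : Sparse S) {L : Set (List Bool)}
    (h : IsP (join O S) L) : WithAdvice (IsP O) L := by
  obtain ⟨V, ⟨M, hM⟩, hL⟩ := h
  obtain ⟨qb, hqb⟩ := out_local M
  obtain ⟨p, hp⟩ := hS
  -- the lists
  have hfin : ∀ n : ℕ, {x : List Bool | x.length ≤ n ∧ S x = true}.Finite := by
    intro n
    have h1 : {x : List Bool | x.length ≤ n}.Finite := List.finite_length_le Bool n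
    exact h1.subset fun x hx => hx.1
  have hl : ∀ n : ℕ, ∃ l : List (List Bool), (∀ y, y ∈ l ↔ ∃ x, y = true :: x ∧
      x.length ≤ qb.eval n ∧ S x = true) ∧ l.length ≤ p.eval (qb.eval n) := by
    intro n
    refine ⟨((hfin (qb.eval n)).toFinset.toList).map (fun x => true :: x), fun y => ?_, ?_⟩
    · rw [List.mem_map]
      constructor
      · rintro ⟨x, hx, rfl⟩
        rw [Finset.mem_toList, Set.Finite.mem_toFinset] at hx
        exact ⟨x, rfl, hx.1, hx.2⟩
      · rintro ⟨x, rfl, h1, h2⟩
        refine ⟨x, ?_, rfl⟩
        rw [Finset.mem_toList, Set.Finite.mem_toFinset]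
        exact ⟨h1, h2⟩
    · rw [List.length_map, Finset.length_toList, ← Set.ncard_eq_toFinset_card _ (hfin _)]
      exact hp _
  choose l hl1 hl2 using hl
  refine ⟨{y | simF M dl O (pairBits (unpair y).2 (unpair y).1) = [true]},
    fun n => pairBits (List.replicate (l n).length true) (bits (l n)),
    Polynomial.C 2 * p.comp qb + Polynomial.C 1 +
      ((Polynomial.C 4 * (qb + 1) + Polynomial.C 2) * p.comp qb + Polynomial.C 1), ?_, ?_, ?_⟩
  · refine ⟨fun y => simF M dl O (pairBits (unpair y).2 (unpair y).1), ?_, fun x => Iff.rfl⟩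
    exact IsFP.comp (isFP_simF M poly_dl O)
      (IsFP.of_poly (poly_pairBits (poly_u2 Poly.id) (poly_u1 Poly.id)))
  · intro n
    rw [Pool.Agent.H620R2.Gauge.A2.length_pairBits, List.length_replicate, bits_length]
    have h1 := sz_list_le (R := qb.eval n + 1) (l n) (by
      intro y hy
      obtain ⟨x, rfl, hx, _⟩ := (hl1 n y).1 hy
      simpa using hx)
    have h2 := hl2 n
    have h3 := Nat.mul_le_mul_left (4 * (qb.eval n + 1) + 2) h2
    simp only [Polynomial.eval_add, Polynomial.eval_mul, Polynomial.eval_C,
      Polynomial.eval_one, Polynomial.eval_comp]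
    omega
  · intro x
    rw [hL x]
    show _ ↔ simF M dl O (pairBits (unpair (pairBits x _)).2 (unpair (pairBits x _)).1) = [true]
    rw [unpair_pairBits]
    dsimp only
    rw [simF_eq (z := V x)]
    rw [← hM x]
    apply hqb
    intro y hy
    rw [dl_bits]
    unfold cor
    rcases y with _ | ⟨b, q⟩
    · rw [if_neg (by simp)]
      rw [Bool.eq_iff_iff]
      constructor
      · intro h1
        unfold lk at h1
        rw [List.any_eq_true] at h1
        obtain ⟨pr, hpr, h2⟩ := h1
        have h3 := (List.of_mem_zip hpr).1
        rw [Bool.and_eq_true, decide_eq_true_eq] at h2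
        rw [h2.1] at h3
        obtain ⟨_, h4, _⟩ := (hl1 _ _).1 h3
        exact absurd h4 (by simp)
      · intro h1
        exact absurd h1 (by simp [join])
    · cases b with
      | false => simp [join]
      | true =>
        rw [if_neg (by simp)]
        show _ = S q
        have hrep : List.replicate (l x.length).length true =
            (l x.length).map (fun _ => true) := by rw [List.map_const']
        rw [hrep, Bool.eq_iff_iff, lk_map (B := fun _ => true)]
        constructor
        · rintro ⟨h1, _⟩
          obtain ⟨x', h2, _, h3⟩ := (hl1 _ _).1 h1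
          rw [List.cons.injEq] at h2
          rw [h2.2]
          exact h3
        · intro h1
          refine ⟨(hl1 _ _).2 ⟨q, rfl, ?_, h1⟩, rfl⟩
          rw [List.length_cons] at hy
          omega

end Pool.Agent.W900.CH
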